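import Pool.Agent.Y960.NA.Gen

/-!
# Generalized Sierpiński sets are not productively Hurewicz if `add(𝒩) = cof(𝒩)`

Let `κ = add(𝒩) = cof(𝒩)` for the ideal `𝒩` of Lebesgue null sets (true under CH, with `κ = ℵ₁`,
and under Martin's axiom, with `κ = 𝔠`; the case `κ = ℵ₁` is the hypothesis `cof(𝒩) = ℵ₁`). Then
for every `κ`-Sierpiński set `S` there is a `κ`-Sierpiński set `Y` which is Hurewicz, while `S × Y`
is not even Menger.
-/

set_option autoImplicit false

namespace Pool.Agent.Results.MP_ed4d4f_gt.AdditivityCofinality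

open Set Filter Cardinal MeasureTheory Pool.Agent.H752R3 Pool.Agent.Y960.NA

/-- Productively Hurewicz, with the factor ranging over all Tychonoff spaces. -/
def ProductivelyHurewicz (X : Type) [TopologicalSpace X] : Prop :=
  ∀ (Y : Type) [TopologicalSpace Y] [T35Space Y], HurewiczSp Y → HurewiczSp (X × Y)

theorem HurewiczSp.menger {Z : Type*} [TopologicalSpace Z] (h : HurewiczSp Z) : MengerSp Z := by
  intro U hU
  obtain ⟨F, hF1, hF2⟩ := h U hU
  refine ⟨F, hF1, ?_⟩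
  rw [eq_univ_iff_forall]
  intro z
  obtain ⟨n, hn⟩ := (hF2 z).exists
  exact mem_iUnion.2 ⟨n, hn⟩

/-- A null family and a dominating family indexed by `κ`. -/
theorem index {κ : Cardinal.{0}} (hκ : ℵ₁ ≤ κ) (hcof : NullCofinal κ) :
    ∃ (N : κ.ord.ToType → Set ℝ) (e : κ.ord.ToType → ℕ → ℕ), (∀ a, volume (N a) = 0) ∧
      (∀ M : Set ℝ, volume M = 0 → ∃ a, M ⊆ N a) ∧ ∀ g : ℕ → ℕ, ∃ a, ∀ n, g n ≤ e a n := by
  classical
  obtain ⟨𝓑, h1, h2, h3⟩ := hcof
  have hκ0 : ℵ₀ ≤ κ := aleph0_le_aleph 1 |>.trans hκ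
  have hι : #(κ.ord.ToType) = κ := Cardinal.mk_ord_toType _
  obtain ⟨B0, hB0, -⟩ := h3 ∅ measure_empty
  have : Nonempty 𝓑 := ⟨⟨B0, hB0⟩⟩
  obtain ⟨j⟩ := (Cardinal.le_def _ _).1 (h1.trans_eq hι.symm)
  have hs := Function.invFun_surjective j.injective
  let N : κ.ord.ToType → Set ℝ := fun a => (Function.invFun j a : 𝓑)
  have hN0 : ∀ a, volume (N a) = 0 := fun a => h2 _ (Function.invFun j a).2
  have hNc : ∀ M : Set ℝ, volume M = 0 → ∃ a, M ⊆ N a := by
    intro M hM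
    obtain ⟨B, hB, hMB⟩ := h3 M hM
    obtain ⟨a, ha⟩ := hs ⟨B, hB⟩
    refine ⟨a, ?_⟩
    show M ⊆ (Function.invFun j a : 𝓑)
    rw [ha]
    exact hMB
  obtain ⟨D, hD⟩ := dominating N hN0 hNc
  have hp : #(κ.ord.ToType × ℕ) = #(κ.ord.ToType) := by
    rw [Cardinal.mk_prod, Cardinal.lift_id, Cardinal.lift_id, hι, Cardinal.mk_nat]
    exact Cardinal.mul_eq_left hκ0 hκ0 Cardinal.aleph0_ne_zero
  obtain ⟨φ⟩ := Cardinal.eq.1 hp
  refine ⟨N, fun a => D (φ.symm a), hN0, hNc, fun g => ?_⟩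
  obtain ⟨p, hp⟩ := hD g
  exact ⟨φ p, by simpa using hp⟩

/-- The construction. -/
theorem main {κ : Cardinal.{0}} (hκ : ℵ₁ ≤ κ) (hadd : NullAdditive κ) (hcof : NullCofinal κ)
    (S : Set ℝ) (hS : GenSierpinski κ S) :
    ¬ ProductivelyHurewicz S ∧
      ∃ Y : Set ℝ, GenSierpinski κ Y ∧ HurewiczSp Y ∧ ¬ MengerSp (S × Y) := by
  classical
  suffices h : ∃ Y : Set ℝ, GenSierpinski κ Y ∧ HurewiczSp Y ∧ ¬ MengerSp (S × Y) by
    refine ⟨fun hp => ?_, h⟩
    obtain ⟨Y, -, hY, hYM⟩ := h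
    exact hYM (HurewiczSp.menger (hp Y hY))
  have hκ0 : ℵ₀ ≤ κ := aleph0_le_aleph 1 |>.trans hκ
  obtain ⟨N, e, hN0, hN, he⟩ := index hκ hcof
  let Q : Set ℝ := rho '' {z | FinSupp z}
  have hQ : Q.Countable := by
    have : {z : ℕ → Bool | FinSupp z} = ⋃ k, range (extB k) := by
      ext z
      simp only [mem_ofPred_eq, mem_iUnion, mem_range]
      constructor
      · rintro ⟨k, hk⟩
        refine ⟨k, fun i => z i, ?_⟩
        ext m
        by_cases h : m < k
        · simp [extB, h]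
        · simp [extB, h, hk m (not_lt.1 h)]
      · rintro ⟨k, s, rfl⟩
        exact finSupp_extB k s
    have h2 : {z : ℕ → Bool | FinSupp z}.Countable := by
      rw [this]
      exact countable_iUnion fun k => Set.countable_range _
    exact h2.image _
  -- the points
  have hstep : ∀ a, ∃ y, (∀ b ≤ a, y ∉ N b) ∧ (∀ s ∈ S, s + y ∉ Q) ∧
      ∃ s ∈ S, ∃ f : ℕ → ℕ, (∀ n, e a n ≤ f n) ∧ s + y = rho (chi f) := by
    intro a
    have hcard : #(Set.Iic a) < κ := by
      rw [← Set.Iio_insert]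
      exact Cardinal.mk_insert_le.trans_lt (Cardinal.add_lt_of_lt hκ0
        (Cardinal.mk_Iio_toType_ord_lt a) (Cardinal.one_lt_aleph0.trans_le hκ0))
    have hU0 : volume (⋃₀ (N '' Set.Iic a)) = 0 := by
      apply hadd _ (mk_image_le.trans_lt hcard)
      rintro _ ⟨b, -, rfl⟩
      exact hN0 b
    obtain ⟨y, hy1, hy2, hy3⟩ := gen_step hadd hS
      (N := toMeasurable volume (⋃₀ (N '' Set.Iic a))) (by rw [measure_toMeasurable]; exact hU0)
      (measurableSet_toMeasurable _ _) hQ (e a)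
    exact ⟨y, fun b hb h => hy1 (subset_toMeasurable _ _ ⟨N b, ⟨b, hb, rfl⟩, h⟩), hy2, hy3⟩
  choose y hyN hyQ hyS using hstep
  have hYnull : ∀ M : Set ℝ, volume M = 0 → #(range y ∩ M : Set ℝ) < κ := by
    intro M hM
    obtain ⟨a, ha⟩ := hN M hM
    have h1 : (range y ∩ M : Set ℝ) ⊆ y '' Set.Iio a := by
      rintro _ ⟨⟨b, rfl⟩, hb⟩
      refine ⟨b, ?_, rfl⟩
      by_contra hcon
      exact hyN b a (not_lt.1 hcon) (ha hb)
    exact (mk_le_mk_of_subset h1).trans_lt (mk_image_le.trans_lt (Cardinal.mk_Iio_toType_ord_lt a))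
  refine ⟨range y, ⟨?_, hYnull⟩, hurewicz_gen (fun _ g hι => bounded_of_add hadd hι g) hYnull, ?_⟩
  · by_contra hc
    obtain ⟨a, ha⟩ := hN (range y) (null_of_small hadd (not_le.1 hc))
    exact hyN a a (le_refl a) (ha ⟨a, rfl⟩)
  · intro hmenger
    let K : ℕ → ℕ → Set ℝ := fun n k => rho '' {x | cnt k x ≤ n}
    have hKc : ∀ n k, IsClosed (K n k) := by
      intro n k
      apply IsCompact.isClosed
      apply IsCompact.image _ continuous_rho
      apply IsClosed.isCompact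
      exact (isClosed_discrete (Set.Iic n)).preimage (continuous_cnt k)
    have hKanti : ∀ n k l, k ≤ l → K n l ⊆ K n k := by
      intro n k l hkl
      apply image_mono
      intro x hx
      exact (cnt_mono hkl x).trans hx
    let V : ℕ → ℕ → Set (S × range y) := fun n k => {z | (z.1 : ℝ) + z.2 ∉ K n k}
    have hVo : ∀ n k, IsOpen (V n k) := by
      intro n k
      have hc : Continuous fun z : S × range y => (z.1 : ℝ) + z.2 :=
        (continuous_subtype_val.comp continuous_fst).add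
          (continuous_subtype_val.comp continuous_snd)
      exact (hKc n k).isOpen_compl.preimage hc
    obtain ⟨F, hF1, hF2⟩ := hmenger.frequently (fun n => range (V n)) (by
      intro n
      refine ⟨?_, ?_⟩
      · rintro _ ⟨k, rfl⟩
        exact hVo n k
      · rw [eq_univ_iff_forall]
        rintro ⟨⟨s, hs⟩, ⟨_, a, rfl⟩⟩
        by_cases hx : ∃ x, rho x = s + y a
        · obtain ⟨x, hx⟩ := hx
          have hxf : ¬ FinSupp x := fun h => hyQ a s hs ⟨x, h, hx⟩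
          obtain ⟨k, hk⟩ := exists_lt_cnt_of_not_finSupp hxf n
          refine ⟨_, ⟨k, rfl⟩, ?_⟩
          rintro ⟨x', hx'1, hx'2⟩
          have : x' = x := rho_injective (hx'2.trans hx.symm)
          subst this
          have h3 : cnt k x' ≤ n := hx'1
          omega
        · refine ⟨_, ⟨0, rfl⟩, ?_⟩
          rintro ⟨x', -, hx'2⟩
          exact hx ⟨x', hx'2⟩)
    have hg : ∀ n, ∃ g, ∀ z ∈ ⋃₀ F n, (z.1 : ℝ) + z.2 ∉ K n g := by
      intro n
      obtain ⟨E, -, hE2, hE3⟩ : ∃ E ⊆ (Set.univ : Set ℕ), E.Finite ∧ V n '' E = F n := by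
        have := Set.exists_subset_image_finite_and (f := V n) (s := Set.univ)
          (p := fun t => t = F n)
        obtain ⟨E', h1, h2, h3⟩ := this.1 ⟨F n, by rw [image_univ]; exact (hF1 n).1,
          (hF1 n).2, rfl⟩
        exact ⟨E', h1, h2, h3⟩
      obtain ⟨g, hg⟩ := hE2.bddAbove
      refine ⟨g, ?_⟩
      rintro z ⟨u, hu, hz⟩
      rw [← hE3] at hu
      obtain ⟨k, hk, rfl⟩ := hu
      intro h1
      exact hz (hKanti n k g (hg hk) h1)
    choose g hg using hg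
    obtain ⟨a, ha⟩ := he g
    obtain ⟨s, hs, f, hf1, hf2⟩ := hyS a
    obtain ⟨n, hn⟩ := (hF2 (⟨s, hs⟩, ⟨y a, a, rfl⟩)).exists
    apply hg n _ hn
    refine ⟨chi f, ?_, hf2.symm⟩
    have h3 := le_psum f (le_refl n)
    have h4 := (ha n).trans (hf1 n)
    exact cnt_chi_le (by omega)

theorem nullAdditive_aleph_one : NullAdditive ℵ₁ := by
  intro 𝓐 h h0
  exact (measure_sUnion_null_iff (countable_iff_lt_aleph_one _ |>.2 h)).2 h0

theorem genSierpinski_aleph_one {S : Set ℝ} : GenSierpinski ℵ₁ S ↔ SierpinskiSet S := by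
  unfold GenSierpinski SierpinskiSet
  rw [← not_lt, ← countable_iff_lt_aleph_one]
  simp_rw [← countable_iff_lt_aleph_one]

theorem nullCofinal_of_CH (CH : (ℵ₁ : Cardinal.{0}) = 𝔠) : NullCofinal ℵ₁ := by
  refine ⟨{N : Set ℝ | MeasurableSet N ∧ volume N = 0}, ?_, fun B hB => hB.2, fun A hA => ?_⟩
  · rw [CH]
    have h1 : #{t : Set ℝ | MeasurableSet t} ≤ 𝔠 := by
      have h2 := MeasurableSpace.cardinal_measurableSet_le_continuum
        (s := MeasurableSpace.countableGeneratingSet ℝ)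
        ((MeasurableSpace.countable_countableGeneratingSet (α := ℝ)).le_aleph0.trans
          Cardinal.aleph0_le_continuum)
      rwa [MeasurableSpace.generateFrom_countableGeneratingSet] at h2
    exact (mk_le_mk_of_subset fun N hN => hN.1).trans h1
  · obtain ⟨B, h1, h2, h3⟩ := exists_measurable_superset_of_null hA
    exact ⟨B, ⟨h2, h3⟩, h1⟩

/-- **Generalized Sierpiński sets are not productively Hurewicz if `add(𝒩) = cof(𝒩)`.**
(1) If `ℵ₁ ≤ κ ≤ add(𝒩)` and `cof(𝒩) ≤ κ`, then no `κ`-Sierpiński set is productively Hurewicz;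
the witness can be taken to be a `κ`-Sierpiński set of reals, and the product is not even Menger.
(2) In particular this holds for Sierpiński sets if `cof(𝒩) = ℵ₁`, and (3) under CH. -/
theorem result :
    (∀ κ : Cardinal.{0}, ℵ₁ ≤ κ → NullAdditive κ → NullCofinal κ →
      ∀ S : Set ℝ, GenSierpinski κ S → ¬ ProductivelyHurewicz S ∧
        ∃ Y : Set ℝ, GenSierpinski κ Y ∧ HurewiczSp Y ∧ ¬ MengerSp (S × Y)) ∧
    (NullCofinal ℵ₁ → ∀ S : Set ℝ, SierpinskiSet S → ¬ ProductivelyHurewicz S ∧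
        ∃ Y : Set ℝ, SierpinskiSet Y ∧ HurewiczSp Y ∧ ¬ MengerSp (S × Y)) ∧
    ((ℵ₁ : Cardinal.{0}) = 𝔠 → ∀ S : Set ℝ, SierpinskiSet S → ¬ ProductivelyHurewicz S ∧
        ∃ Y : Set ℝ, SierpinskiSet Y ∧ HurewiczSp Y ∧ ¬ MengerSp (S × Y)) := by
  have h2 : NullCofinal ℵ₁ → ∀ S : Set ℝ, SierpinskiSet S → ¬ ProductivelyHurewicz S ∧
        ∃ Y : Set ℝ, SierpinskiSet Y ∧ HurewiczSp Y ∧ ¬ MengerSp (S × Y) := by
    intro hcof S hS
    obtain ⟨h1, Y, hY1, hY2, hY3⟩ := main le_rfl nullAdditive_aleph_one hcof S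
      (genSierpinski_aleph_one.2 hS)
    exact ⟨h1, Y, genSierpinski_aleph_one.1 hY1, hY2, hY3⟩
  exact ⟨fun κ hκ hadd hcof S hS => main hκ hadd hcof S hS, h2,
    fun CH => h2 (nullCofinal_of_CH CH)⟩

end Pool.Agent.Results.MP_ed4d4f_gt.AdditivityCofinality
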